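import Pool.Agent.Y139.SM.Rigid2

/-! The inequality of Cauchy and Schwarz for averages over primes. -/

set_option autoImplicit false

namespace Pool.Agent.R461.UR

open Complex Filter Topology ComplexConjugate NumberField IsDedekindDomain Asymptotics
  Pool.Agent.W401.Cheb Pool.Agent.W540.BE Pool.Agent.W353.L1 Polynomial
open Pool.Agent.H341R2 (lam lam_tendsto)

section
variable {K : Type} [Field K] [NumberField K] {κ : Type} [Fintype κ]

theorem normSq_comb (c : κ → ℝ) (g : κ → ℂ) :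
    ‖∑ a, (c a : ℂ) * g a‖ ^ 2 = ∑ a, ∑ b, c a * c b * (g a * conj (g b)).re := by
  have h1 : (‖∑ a, (c a : ℂ) * g a‖ ^ 2 : ℝ) =
      ((∑ a, (c a : ℂ) * g a) * conj (∑ a, (c a : ℂ) * g a)).re := by
    rw [Complex.mul_conj, Complex.normSq_eq_norm_sq, Complex.ofReal_re]
  rw [h1, map_sum, Finset.sum_mul_sum, Complex.re_sum]
  refine Finset.sum_congr rfl fun a _ => ?_
  rw [Complex.re_sum]
  refine Finset.sum_congr rfl fun b _ => ?_
  have h2 : (c a : ℂ) * g a * conj ((c b : ℂ) * g b) =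
      ((c a * c b : ℝ) : ℂ) * (g a * conj (g b)) := by
    rw [map_mul, Complex.conj_ofReal]
    push_cast
    ring
  rw [h2, Complex.re_ofReal_mul]

theorem EP_fsum {ι : Type} (s : Finset ι) {ε : ℝ} (hε : 0 < ε)
    (f : ι → HeightOneSpectrum (𝓞 K) → ℝ) (C : ι → ℝ) (hf : ∀ k ∈ s, ∀ v, |f k v| ≤ C k) :
    (EP (nm K) ε fun v => ∑ k ∈ s, f k v) = ∑ k ∈ s, EP (nm K) ε fun v => f k v :=
  EP_sum normSys hε s f C hf

/-- **The inequality.** -/
theorem core (g : κ → HeightOneSpectrum (𝓞 K) → ℂ) (G : κ → ℝ) (hg : ∀ a v, ‖g a v‖ ≤ G a)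
    (w : HeightOneSpectrum (𝓞 K) → ℂ) {b : ℝ} (hb : 0 ≤ b) (hw : ∀ v, ‖w v‖ ≤ b)
    (c : κ → ℝ) (S : κ → κ → ℝ → ℝ)
    (hS : ∀ a a', Tendsto (fun ε : ℝ => (EP (nm K) ε fun v => (g a v * conj (g a' v)).re) /
      lam ε - S a a' ε) (𝓝[>] 0) (𝓝 0)) (y : κ → ℝ → ℝ)
    (hy : ∀ a, Tendsto (fun ε : ℝ => (EP (nm K) ε fun v => (g a v * w v).re) / lam ε -
      y a ε) (𝓝[>] 0) (𝓝 0)) {δ η : ℝ} (hδ : 0 < δ) (hη : 0 < η) :
    ∀ᶠ ε : ℝ in 𝓝[>] 0, 0 ≤ (∑ a, ∑ a', c a * c a' * S a a' ε) + η ∧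
      |∑ a, c a * y a ε| ≤ b * ((δ + (∑ a, ∑ a', c a * c a' * S a a' ε) / δ) / 2) + η := by
  classical
  have hN : NormSys (nm K) := normSys
  have hG : ∀ a, (∀ v : HeightOneSpectrum (𝓞 K), 0 ≤ G a) := fun a v =>
    (norm_nonneg _).trans (hg a v)
  set Φ : HeightOneSpectrum (𝓞 K) → ℂ := fun v => ∑ a, (c a : ℂ) * g a v with hΦ
  -- the two averages
  have l1 : Tendsto (fun ε : ℝ => (EP (nm K) ε fun v => ‖Φ v‖ ^ 2) / lam ε -
      ∑ a, ∑ a', c a * c a' * S a a' ε) (𝓝[>] 0) (𝓝 0) := by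
    have h1 : Tendsto (fun ε : ℝ => ∑ a, ∑ a', c a * c a' *
        ((EP (nm K) ε fun v => (g a v * conj (g a' v)).re) / lam ε - S a a' ε)) (𝓝[>] 0)
        (𝓝 (∑ a : κ, ∑ a' : κ, c a * c a' * 0)) :=
      tendsto_finsetSum _ fun a _ => tendsto_finsetSum _ fun a' _ => (hS a a').const_mul _
    simp only [mul_zero, Finset.sum_const_zero] at h1
    refine h1.congr' ?_
    filter_upwards [self_mem_nhdsWithin] with ε hε
    have hε : (0 : ℝ) < ε := hε
    have hbb : ∀ a a' v, |c a * c a' * (g a v * conj (g a' v)).re| ≤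
        |c a * c a'| * (G a * G a') := by
      intro a a' v
      rw [abs_mul]
      refine mul_le_mul_of_nonneg_left ((Complex.abs_re_le_norm _).trans ?_) (abs_nonneg _)
      rw [norm_mul, Complex.norm_conj]
      exact mul_le_mul (hg a v) (hg a' v) (norm_nonneg _) (hG a v)
    have h2 : (EP (nm K) ε fun v => ‖Φ v‖ ^ 2) = ∑ a, ∑ a', c a * c a' *
        EP (nm K) ε fun v => (g a v * conj (g a' v)).re := by
      have e1 : (fun v => ‖Φ v‖ ^ 2) = fun v => ∑ a, ∑ a', c a * c a' *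
          (g a v * conj (g a' v)).re := by
        funext v
        exact normSq_comb c fun a => g a v
      rw [e1, EP_fsum Finset.univ hε (fun a v => ∑ a', c a * c a' * (g a v * conj (g a' v)).re)
        (fun a => ∑ a', |c a * c a'| * (G a * G a')) (fun a _ v =>
          (Finset.abs_sum_le_sum_abs _ _).trans (Finset.sum_le_sum fun a' _ => hbb a a' v))]
      refine Finset.sum_congr rfl fun a _ => ?_
      rw [EP_fsum Finset.univ hε (fun a' v => c a * c a' * (g a v * conj (g a' v)).re)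
        (fun a' => |c a * c a'| * (G a * G a')) (fun a' _ v => hbb a a' v)]
      exact Finset.sum_congr rfl fun a' _ => EP_const_mul _ _
    rw [h2, Finset.sum_div, ← Finset.sum_sub_distrib]
    refine Finset.sum_congr rfl fun a _ => ?_
    rw [Finset.sum_div, ← Finset.sum_sub_distrib]
    refine Finset.sum_congr rfl fun a' _ => ?_
    ring
  have l2 : Tendsto (fun ε : ℝ => (EP (nm K) ε fun v => (Φ v * w v).re) / lam ε -
      ∑ a, c a * y a ε) (𝓝[>] 0) (𝓝 0) := by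
    have h1 : Tendsto (fun ε : ℝ => ∑ a, c a *
        ((EP (nm K) ε fun v => (g a v * w v).re) / lam ε - y a ε)) (𝓝[>] 0)
        (𝓝 (∑ a : κ, c a * 0)) := tendsto_finsetSum _ fun a _ => (hy a).const_mul _
    simp only [mul_zero, Finset.sum_const_zero] at h1
    refine h1.congr' ?_
    filter_upwards [self_mem_nhdsWithin] with ε hε
    have hε : (0 : ℝ) < ε := hε
    have hbb : ∀ a v, |c a * (g a v * w v).re| ≤ |c a| * (G a * b) := by
      intro a v
      rw [abs_mul]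
      refine mul_le_mul_of_nonneg_left ((Complex.abs_re_le_norm _).trans ?_) (abs_nonneg _)
      rw [norm_mul]
      exact mul_le_mul (hg a v) (hw v) (norm_nonneg _) (hG a v)
    have h2 : (EP (nm K) ε fun v => (Φ v * w v).re) = ∑ a, c a *
        EP (nm K) ε fun v => (g a v * w v).re := by
      have e1 : (fun v => (Φ v * w v).re) = fun v => ∑ a, c a * (g a v * w v).re := by
        funext v
        rw [hΦ]
        simp only
        rw [Finset.sum_mul, Complex.re_sum]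
        refine Finset.sum_congr rfl fun a _ => ?_
        rw [mul_assoc, Complex.re_ofReal_mul]
      rw [e1, EP_fsum Finset.univ hε (fun a v => c a * (g a v * w v).re)
        (fun a => |c a| * (G a * b)) (fun a _ v => hbb a v)]
      exact Finset.sum_congr rfl fun a _ => EP_const_mul _ _
    rw [h2, Finset.sum_div, ← Finset.sum_sub_distrib]
    refine Finset.sum_congr rfl fun a _ => ?_
    ring
  -- bounds
  have hΦb : ∀ v, ‖Φ v‖ ≤ ∑ a, |c a| * G a := by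
    intro v
    refine (norm_sum_le _ _).trans (Finset.sum_le_sum fun a _ => ?_)
    rw [norm_mul, Complex.norm_real, Real.norm_eq_abs]
    exact mul_le_mul_of_nonneg_left (hg a v) (abs_nonneg _)
  set R : ℝ := ∑ a, |c a| * G a with hR
  have hpt : ∀ v, |(Φ v * w v).re| ≤ b / 2 * (δ * 1 + δ⁻¹ * ‖Φ v‖ ^ 2) := by
    intro v
    refine (Complex.abs_re_le_norm _).trans ?_
    rw [norm_mul]
    have h0 : 0 ≤ ‖Φ v‖ := norm_nonneg _
    have h7 : 0 ≤ δ⁻¹ * (‖Φ v‖ - δ) ^ 2 := by positivity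
    have h8 : δ⁻¹ * (‖Φ v‖ - δ) ^ 2 = δ⁻¹ * ‖Φ v‖ ^ 2 - 2 * ‖Φ v‖ + δ := by
      field_simp
      ring
    calc ‖Φ v‖ * ‖w v‖ ≤ ‖Φ v‖ * b := mul_le_mul_of_nonneg_left (hw v) h0
      _ = b * ‖Φ v‖ := mul_comm _ _
      _ ≤ b * ((δ * 1 + δ⁻¹ * ‖Φ v‖ ^ 2) / 2) :=
          mul_le_mul_of_nonneg_left (by linarith) hb
      _ = _ := by ring
  have hE : ∀ ε : ℝ, 0 < ε → |EP (nm K) ε fun v => (Φ v * w v).re| ≤
      b / 2 * (δ * (EP (nm K) ε fun _ => 1) + δ⁻¹ * EP (nm K) ε fun v => ‖Φ v‖ ^ 2) := by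
    intro ε hε
    have hR0 : ∀ v, ‖Φ v‖ ^ 2 ≤ R ^ 2 := fun v =>
      pow_le_pow_left₀ (norm_nonneg _) (hΦb v) 2
    have c3 : ∀ v : HeightOneSpectrum (𝓞 K), |δ * 1| ≤ δ := fun _ => by
      rw [mul_one, abs_of_pos hδ]
    have c4 : ∀ v, |δ⁻¹ * ‖Φ v‖ ^ 2| ≤ δ⁻¹ * R ^ 2 := fun v => by
      rw [abs_mul, abs_of_pos (inv_pos.2 hδ), abs_of_nonneg (by positivity)]
      exact mul_le_mul_of_nonneg_left (hR0 v) (inv_pos.2 hδ).le
    have e2 : b / 2 * (δ * (EP (nm K) ε fun _ => 1) + δ⁻¹ * EP (nm K) ε fun v => ‖Φ v‖ ^ 2) =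
        EP (nm K) ε fun v => b / 2 * (δ * 1 + δ⁻¹ * ‖Φ v‖ ^ 2) := by
      rw [EP_const_mul, EP_add hN hε c3 c4, EP_const_mul, EP_const_mul]
    rw [e2]
    refine EP_abs_le (B := b / 2 * (δ + δ⁻¹ * R ^ 2)) (fun v => ?_) hpt hε
    rw [abs_mul, abs_of_nonneg (by positivity : (0 : ℝ) ≤ b / 2)]
    exact mul_le_mul_of_nonneg_left ((abs_add_le _ _).trans (add_le_add (c3 v) (c4 v)))
      (by positivity)
  -- conclusion
  set L : ℝ := b / 2 * (δ + δ⁻¹) + 2 with hL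
  have hL0 : 0 < L := by positivity
  set θ : ℝ := η / L with hθ
  have hθ0 : 0 < θ := by positivity
  have hLθ : L * θ = η := by
    rw [hθ]
    field_simp
  filter_upwards [(Metric.tendsto_nhds.1 l1) θ hθ0, (Metric.tendsto_nhds.1 l2) θ hθ0,
    (Metric.tendsto_nhds.1 (EP_one K)) θ hθ0, lam_tendsto.eventually_gt_atTop 0,
    self_mem_nhdsWithin] with ε k1 k2 k3 k4 k5
  have hε : (0 : ℝ) < ε := k5
  rw [Real.dist_eq, sub_zero] at k1 k2
  rw [Real.dist_eq] at k3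
  have g1 := hE ε hε
  have g2 : 0 ≤ EP (nm K) ε fun v => ‖Φ v‖ ^ 2 := EP_nonneg fun v => by positivity
  set q : ℝ := (EP (nm K) ε fun v => ‖Φ v‖ ^ 2) / lam ε with hq
  set u : ℝ := (EP (nm K) ε fun v => (Φ v * w v).re) / lam ε with hu
  set o : ℝ := (EP (nm K) ε fun _ => 1) / lam ε with ho
  set QQ : ℝ := ∑ a, ∑ a', c a * c a' * S a a' ε with hQQ
  have hq0 : 0 ≤ q := div_nonneg g2 k4.le
  have g3 : |u| ≤ b / 2 * (δ * o + δ⁻¹ * q) := by
    rw [hu, abs_div, abs_of_pos k4, div_le_iff₀ k4]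
    refine g1.trans (le_of_eq ?_)
    rw [ho, hq]
    field_simp
  have k1' := abs_lt.1 k1
  have k2' := abs_lt.1 k2
  have k3' := abs_lt.1 k3
  have hθη : θ ≤ η := by
    have h1 : 2 * θ ≤ L * θ := mul_le_mul_of_nonneg_right (by
      rw [hL]
      have : 0 ≤ b / 2 * (δ + δ⁻¹) := by positivity
      linarith) hθ0.le
    rw [hLθ] at h1
    linarith
  refine ⟨by linarith, ?_⟩
  have h1 : |∑ a, c a * y a ε| ≤ |u| + θ := by
    have h2 : ∑ a, c a * y a ε = u - (u - ∑ a, c a * y a ε) := by ring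
    rw [h2]
    refine (abs_sub _ _).trans ?_
    linarith
  have h3 : b / 2 * (δ * o + δ⁻¹ * q) ≤ b * ((δ + QQ / δ) / 2) + b / 2 * (δ + δ⁻¹) * θ := by
    have h4 : δ * o ≤ δ * (1 + θ) := mul_le_mul_of_nonneg_left (by linarith) hδ.le
    have h5 : δ⁻¹ * q ≤ δ⁻¹ * (QQ + θ) :=
      mul_le_mul_of_nonneg_left (by linarith) (inv_pos.2 hδ).le
    have h6 : b * ((δ + QQ / δ) / 2) + b / 2 * (δ + δ⁻¹) * θ =
        b / 2 * (δ * (1 + θ) + δ⁻¹ * (QQ + θ)) := by
      field_simp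
      ring
    rw [h6]
    exact mul_le_mul_of_nonneg_left (by linarith) (by positivity)
  have h7 : b / 2 * (δ + δ⁻¹) * θ + 2 * θ = η := by
    rw [← hLθ, hL]
    ring
  linarith

end

end Pool.Agent.R461.UR
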