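import Pool.Agent.R461.UR.Size
import Pool.Agent.R461.UR.Core

/-! The null combinations of the quadratic form of the sizes form an ideal. -/

set_option autoImplicit false

namespace Pool.Agent.R461.UR

open Complex Filter Topology ComplexConjugate NumberField IsDedekindDomain Asymptotics
  Pool.Agent.W401.Cheb Pool.Agent.W540.BE Pool.Agent.W353.L1 Polynomial
open Pool.Agent.H341R2 (lam lam_tendsto)
open Pool.Agent.W353.PV (tF)
open Pool.Agent.W353.EF (LFun)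
open Pool.Agent.W353.EH (edgePoint size HasOrder)
open Pool.Agent.W353.AT (IsArtin exists_common)

section
variable {K : Type} [Field K] [NumberField K]

theorem zz_zero (v : HeightOneSpectrum (𝓞 K)) : zz 0 v = 1 := by
  unfold zz
  simp

theorem char_bound {n : ℕ} (ψ : Representation ℂ (GK K) (Fin n → ℂ)) (hψ : IsArtin ψ) (g : GK K) :
    ‖ψ.character g‖ ≤ n := by
  obtain ⟨U, hUn, hU, hx1⟩ := exists_common (κ := Unit) (n := fun _ => n)
    (fun _ => ψ) fun _ => hψ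
  have hfin : Finite (GK K ⧸ U) := Subgroup.quotient_finite_of_isOpen U hU
  exact norm_char_le U ψ (hx1 ()) g

/-- the local term of `P` -/
noncomputable def loc (P : Mot K) (σ : HeightOneSpectrum (𝓞 K) → GK K)
    (v : HeightOneSpectrum (𝓞 K)) : ℂ := (tT P.H v : ℂ) * P.ψ.character (σ v)⁻¹

theorem norm_loc (P : Mot K) (σ : HeightOneSpectrum (𝓞 K) → GK K)
    (v : HeightOneSpectrum (𝓞 K)) : ‖loc P σ v‖ ≤ (P.dim : ℝ) := by
  unfold loc Mot.dim
  rw [norm_mul, Complex.norm_real, Real.norm_eq_abs, Nat.cast_mul]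
  exact mul_le_mul (abs_tT _ _) (char_bound P.ψ P.artin _) (norm_nonneg _) (Nat.cast_nonneg _)

theorem tT_cat (P Q : Mot K) (v : HeightOneSpectrum (𝓞 K)) :
    tT (P.cat Q) v = tT P.H v * tT Q.H v := by
  have h1 : ∀ C C' : Coh K, C = C' → tF C.X C.d C.i C.N K v = tF C'.X C'.d C'.i C'.N K v := by
    rintro C _ rfl
    rfl
  unfold tT Mot.cat
  rw [Fin.prod_univ_add]
  congr 1
  · exact Finset.prod_congr rfl fun t _ => h1 _ _ (Fin.append_left _ _ _)
  · exact Finset.prod_congr rfl fun t _ => h1 _ _ (Fin.append_right _ _ _)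

variable {σ : HeightOneSpectrum (𝓞 K) → GK K} (hσ : ∀ v, IsFrob v (σ v))

include hσ

theorem tensor_sz {P M : Mot K} {τ : ℝ} {C : HeightOneSpectrum (𝓞 K) → ℂ[X]}
    (h : IsTensor P M τ C) :
    (∀ᶠ ε : ℝ in 𝓝[>] 0, LFun C (edgePoint (weight (P.cat M)) τ + ε) ≠ 0) ∧
    Tendsto (fun ε : ℝ => (EP (nm K) ε fun v => (loc P σ v * (loc M σ v * zz τ v)).re) / lam ε -
      sizeT P M τ C ε) (𝓝[>] 0) (𝓝 0) := by
  obtain ⟨n, θ, h1, h2, h3⟩ := h
  obtain ⟨h4, h5⟩ := prod_size (P.cat M) hσ θ h1 τ C h3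
  refine ⟨h4, h5.congr fun ε => ?_⟩
  have e : (fun v => ((tT (P.cat M) v : ℂ) * (θ.character (σ v)⁻¹ * zz τ v)).re) =
      fun v => (loc P σ v * (loc M σ v * zz τ v)).re := by
    funext v
    rw [tT_cat, h2]
    unfold loc
    congr 1
    push_cast
    ring
  rw [e]
  rfl

theorem pairing_sz {P Q : Mot K} {B : HeightOneSpectrum (𝓞 K) → ℂ[X]} (h : IsPairing P Q B) :
    (∀ᶠ ε : ℝ in 𝓝[>] 0, LFun B (edgePoint (weight (P.cat Q)) 0 + ε) ≠ 0) ∧
    Tendsto (fun ε : ℝ => (EP (nm K) ε fun v => (loc P σ v * conj (loc Q σ v)).re) / lam ε -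
      sizeT P Q 0 B ε) (𝓝[>] 0) (𝓝 0) := by
  obtain ⟨n, θ, h1, h2, h3⟩ := h
  obtain ⟨h4, h5⟩ := prod_size (P.cat Q) hσ θ h1 0 B h3
  refine ⟨h4, h5.congr fun ε => ?_⟩
  have e : (fun v => ((tT (P.cat Q) v : ℂ) * (θ.character (σ v)⁻¹ * zz 0 v)).re) =
      fun v => (loc P σ v * conj (loc Q σ v)).re := by
    funext v
    rw [tT_cat, h2, zz_zero]
    unfold loc
    rw [map_mul, Complex.conj_ofReal]
    congr 1
    push_cast
    ring
  rw [e]
  rfl

theorem l_sz {M : Mot K} {τ : ℝ} {C : HeightOneSpectrum (𝓞 K) → ℂ[X]} (h : IsL M τ C) :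
    (∀ᶠ ε : ℝ in 𝓝[>] 0, LFun C (edgePoint (weight M.H) τ + ε) ≠ 0) ∧
    Tendsto (fun ε : ℝ => (EP (nm K) ε fun v => (loc M σ v * zz τ v).re) / lam ε -
      size (weight M.H) τ C ε) (𝓝[>] 0) (𝓝 0) := by
  obtain ⟨h4, h5⟩ := prod_size M.H hσ M.ψ M.artin τ C h
  refine ⟨h4, h5.congr fun ε => ?_⟩
  have e : (fun v => ((tT M.H v : ℂ) * (M.ψ.character (σ v)⁻¹ * zz τ v)).re) =
      fun v => (loc M σ v * zz τ v).re := by
    funext v
    unfold loc
    rw [mul_assoc]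
  rw [e]

/-- the local inequality -/
theorem ineq {κ : Type} [Fintype κ] {P : κ → Mot K} {c : κ → ℝ}
    {B : κ → κ → HeightOneSpectrum (𝓞 K) → ℂ[X]} (hB : ∀ a b, IsPairing (P a) (P b) (B a b))
    {M : Mot K} {τ : ℝ} {C : κ → HeightOneSpectrum (𝓞 K) → ℂ[X]}
    (hC : ∀ a, IsTensor (P a) M τ (C a)) {δ η : ℝ} (hδ : 0 < δ) (hη : 0 < η) :
    ∀ᶠ ε : ℝ in 𝓝[>] 0, |∑ a, c a * sizeT (P a) M τ (C a) ε| ≤
      M.dim * ((δ + form P c B ε / δ) / 2) + η := by
  have h := core (K := K) (fun a v => loc (P a) σ v) (fun a => ((P a).dim : ℝ))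
    (fun a v => norm_loc (P a) σ v) (fun v => loc M σ v * zz τ v) (b := (M.dim : ℝ))
    (Nat.cast_nonneg _) (fun v => by rw [norm_mul, norm_zz, mul_one]; exact norm_loc M σ v) c
    (fun a a' => sizeT (P a) (P a') 0 (B a a')) (fun a a' => (pairing_sz hσ (hB a a')).2)
    (fun a => sizeT (P a) M τ (C a)) (fun a => (tensor_sz hσ (hC a)).2) hδ hη
  exact h.mono fun ε hε => hε.2

theorem form_pos {κ : Type} [Fintype κ] {P : κ → Mot K} {c : κ → ℝ}
    {B : κ → κ → HeightOneSpectrum (𝓞 K) → ℂ[X]} (hB : ∀ a b, IsPairing (P a) (P b) (B a b))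
    {η : ℝ} (hη : 0 < η) : ∀ᶠ ε : ℝ in 𝓝[>] 0, -η ≤ form P c B ε := by
  have h := core (K := K) (fun a v => loc (P a) σ v) (fun a => ((P a).dim : ℝ))
    (fun a v => norm_loc (P a) σ v) (fun _ => 0) (b := 0)
    le_rfl (fun v => by rw [norm_zero]) c
    (fun a a' => sizeT (P a) (P a') 0 (B a a')) (fun a a' => (pairing_sz hσ (hB a a')).2)
    (fun _ _ => 0) (fun a => by
      have e : ∀ ε : ℝ, (EP (nm K) ε fun v => (loc (P a) σ v * (0 : ℂ)).re) = 0 := by
        intro ε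
        simp only [mul_zero, Complex.zero_re]
        unfold EP
        simp
      simp only [e, zero_div, sub_zero]
      exact tendsto_const_nhds) zero_lt_one hη
  refine h.mono fun ε hε => ?_
  have h1 := hε.1
  unfold form
  linarith

/-- the orders -/
theorem form_orders {κ : Type} [Fintype κ] {P : κ → Mot K} {c : κ → ℝ}
    {B : κ → κ → HeightOneSpectrum (𝓞 K) → ℂ[X]} (hB : ∀ a b, IsPairing (P a) (P b) (B a b))
    {k : κ → κ → ℤ} (hk : ∀ a b, OrderT (P a) (P b) 0 (B a b) (k a b)) :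
    ∑ a, ∑ b, c a * c b * k a b ≤ 0 ∧ (∑ a, ∑ b, c a * c b * k a b = 0 →
      ∀ (M : Mot K) (τ : ℝ) (C : κ → HeightOneSpectrum (𝓞 K) → ℂ[X]),
        (∀ a, IsTensor (P a) M τ (C a)) →
        Tendsto (fun ε => ∑ a, c a * sizeT (P a) M τ (C a) ε) (𝓝[>] 0) (𝓝 0) ∧
        ∀ m : κ → ℤ, (∀ a, OrderT (P a) M τ (C a) (m a)) → ∑ a, c a * m a = 0) := by
  have hlim : Tendsto (form P c B) (𝓝[>] 0) (𝓝 (-∑ a, ∑ b, c a * c b * k a b)) := by
    have h1 : Tendsto (fun ε => ∑ a, ∑ b, c a * c b * sizeT (P a) (P b) 0 (B a b) ε) (𝓝[>] 0)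
        (𝓝 (∑ a, ∑ b, c a * c b * (-(k a b : ℝ)))) :=
      tendsto_finsetSum _ fun a _ => tendsto_finsetSum _ fun b _ =>
        (size_of_order' (pairing_sz hσ (hB a b)).1 (hk a b)).const_mul _
    have e : ∑ a, ∑ b, c a * c b * (-(k a b : ℝ)) = -∑ a, ∑ b, c a * c b * k a b := by
      rw [← Finset.sum_neg_distrib]
      refine Finset.sum_congr rfl fun a _ => ?_
      rw [← Finset.sum_neg_distrib]
      exact Finset.sum_congr rfl fun b _ => by ring
    rw [e] at h1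
    exact h1
  refine ⟨?_, fun h0 M τ C hC => ?_⟩
  · have h1 : 0 ≤ -∑ a, ∑ b, c a * c b * (k a b : ℝ) := by
      refine le_of_forall_pos_le_add fun η hη => ?_
      refine ge_of_tendsto (hlim.add_const η) ?_
      filter_upwards [form_pos hσ (c := c) hB hη] with ε hε
      linarith
    linarith
  · rw [h0, neg_zero] at hlim
    have h2 : Tendsto (fun ε => ∑ a, c a * sizeT (P a) M τ (C a) ε) (𝓝[>] 0) (𝓝 0) := by
      refine Pool.Agent.Y139.SM.rigid_lim (C := (M.dim : ℝ)) (Nat.cast_nonneg _) hlim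
        fun δ η hδ hη => ?_
      refine (ineq hσ hB hC (c := c) hδ hη).mono fun ε hε => ?_
      rw [sub_zero]
      exact hε
    refine ⟨h2, fun m hm => ?_⟩
    have h3 : Tendsto (fun ε => ∑ a, c a * sizeT (P a) M τ (C a) ε) (𝓝[>] 0)
        (𝓝 (∑ a, c a * (-(m a : ℝ)))) :=
      tendsto_finsetSum _ fun a _ => (size_of_order' (tensor_sz hσ (hC a)).1 (hm a)).const_mul _
    have h4 := tendsto_nhds_unique h3 h2
    have e : ∑ a, c a * (-(m a : ℝ)) = -∑ a, c a * m a := by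
      rw [← Finset.sum_neg_distrib]
      exact Finset.sum_congr rfl fun a _ => by ring
    rw [e] at h4
    linarith

omit hσ in
theorem loc_mot (H : Coh K) (σ : HeightOneSpectrum (𝓞 K) → GK K)
    (v : HeightOneSpectrum (𝓞 K)) : loc H.mot σ v = ((tF H.X H.d H.i H.N K v : ℝ) : ℂ) := by
  unfold loc tT Coh.mot
  have e : (1 : Representation ℂ (GK K) (Fin 1 → ℂ)).character (σ v)⁻¹ = 1 := by
    have h1 : (1 : Representation ℂ (GK K) (Fin 1 → ℂ)).character (σ v)⁻¹ =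
      LinearMap.trace ℂ (Fin 1 → ℂ) (1 : Module.End ℂ (Fin 1 → ℂ)) := rfl
    rw [h1, LinearMap.trace_one]
    simp
  change ((∏ t : Fin 1, tF H.X H.d H.i H.N K v : ℝ) : ℂ) *
    (1 : Representation ℂ (GK K) (Fin 1 → ℂ)).character (σ v)⁻¹ = _
  rw [e, mul_one, Fin.prod_const, pow_one]

/-- **A nonzero order at the edge.** -/
theorem single {H : Coh K} {B₁ B₂ : HeightOneSpectrum (𝓞 K) → ℂ[X]} (hB₁ : IsL H.mot 0 B₁)
    (hB₂ : IsPairing H.mot H.mot B₂) {k₁ k₂ : ℤ} (h1 : HasOrder (weight H.mot.H) 0 B₁ k₁)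
    (h2 : OrderT H.mot H.mot 0 B₂ k₂) (hk₂ : -1 ≤ k₂) (hk₁ : k₁ ≠ 0) :
    (k₁ = 1 ∨ k₁ = -1) ∧ k₂ = -1 ∧ ∀ (w : HeightOneSpectrum (𝓞 K) → ℂ) (b : ℝ), 0 ≤ b →
      (∀ v, ‖w v‖ ≤ b) → Tendsto (fun ε : ℝ =>
        (EP (nm K) ε fun v => (loc H.mot σ v * w v).re) / lam ε +
          k₁ * ((EP (nm K) ε fun v => (w v).re) / lam ε)) (𝓝[>] 0) (𝓝 0) := by
  classical
  obtain ⟨n1, s1⟩ := l_sz hσ hB₁
  obtain ⟨n2, s2⟩ := pairing_sz hσ hB₂
  have t1 := size_of_order' n1 h1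
  have t2 := size_of_order' n2 h2
  obtain ⟨e, he, hek⟩ : ∃ e : ℤ, (e = 1 ∨ e = -1) ∧ 1 ≤ e * k₁ := by
    rcases lt_or_gt_of_ne hk₁ with h | h
    · exact ⟨-1, Or.inr rfl, by omega⟩
    · exact ⟨1, Or.inl rfl, by omega⟩
  have hee : (e : ℝ) * e = 1 := by
    rcases he with h | h <;> rw [h] <;> norm_num
  -- the two functions `T_H` and `1`
  set g : Bool → HeightOneSpectrum (𝓞 K) → ℂ := fun a v => if a then loc H.mot σ v else 1 with hg
  set c : Bool → ℝ := fun a => if a then 1 else (e : ℝ) with hc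
  set S : Bool → Bool → ℝ → ℝ := fun a a' ε => if a then (if a' then sizeT H.mot H.mot 0 B₂ ε else
    size (weight H.mot.H) 0 B₁ ε) else (if a' then size (weight H.mot.H) 0 B₁ ε else 1) with hS
  have s1' : Tendsto (fun ε : ℝ => (EP (nm K) ε fun v => (loc H.mot σ v).re) / lam ε -
      size (weight H.mot.H) 0 B₁ ε) (𝓝[>] 0) (𝓝 0) := by
    refine s1.congr fun ε => ?_
    simp only [zz_zero, mul_one]
  have hSlim : ∀ a a', Tendsto (fun ε : ℝ => (EP (nm K) ε fun v =>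
      (g a v * conj (g a' v)).re) / lam ε - S a a' ε) (𝓝[>] 0) (𝓝 0) := by
    intro a a'
    rcases a with _ | _ <;> rcases a' with _ | _
    · simp only [hg, hS, Bool.false_eq_true, if_false, map_one, mul_one, Complex.one_re]
      have h3 := (EP_one K).sub_const 1
      rw [sub_self] at h3
      exact h3
    · simp only [hg, hS, Bool.false_eq_true, if_false, if_true, one_mul, Complex.conj_re]
      exact s1'
    · simp only [hg, hS, Bool.false_eq_true, if_false, if_true, map_one, mul_one]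
      exact s1'
    · simp only [hg, hS, if_true]
      exact s2
  set Q : ℝ → ℝ := fun ε => ∑ a, ∑ a', c a * c a' * S a a' ε with hQ
  have hQe : ∀ ε, Q ε = sizeT H.mot H.mot 0 B₂ ε + 2 * (e : ℝ) * size (weight H.mot.H) 0 B₁ ε +
      1 := by
    intro ε
    rw [hQ]
    simp only [Fintype.sum_bool, hc, hS, if_true, Bool.false_eq_true, if_false]
    linear_combination hee
  have hQlim : Tendsto Q (𝓝[>] 0) (𝓝 (-(k₂ : ℝ) + 2 * (e : ℝ) * (-(k₁ : ℝ)) + 1)) := by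
    have h3 : Tendsto (fun ε => sizeT H.mot H.mot 0 B₂ ε +
        2 * (e : ℝ) * size (weight H.mot.H) 0 B₁ ε + 1) (𝓝[>] 0)
        (𝓝 (-(k₂ : ℝ) + 2 * (e : ℝ) * (-(k₁ : ℝ)) + 1)) :=
      (t2.add (t1.const_mul _)).add_const _
    exact h3.congr fun ε => (hQe ε).symm
  have hgb : ∀ a v, ‖g a v‖ ≤ (H.mot.dim : ℝ) + 1 := by
    intro a v
    rcases a with _ | _
    · simp only [hg, Bool.false_eq_true, if_false, norm_one]
      have : (0 : ℝ) ≤ (H.mot.dim : ℝ) := Nat.cast_nonneg _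
      linarith
    · simp only [hg, if_true]
      exact (norm_loc H.mot σ v).trans (by linarith)
  have hcore : ∀ (w : HeightOneSpectrum (𝓞 K) → ℂ) (b : ℝ), 0 ≤ b → (∀ v, ‖w v‖ ≤ b) →
      ∀ δ η : ℝ, 0 < δ → 0 < η → ∀ᶠ ε : ℝ in 𝓝[>] 0, 0 ≤ Q ε + η ∧
        |∑ a, c a * ((EP (nm K) ε fun v => (g a v * w v).re) / lam ε)| ≤
          b * ((δ + Q ε / δ) / 2) + η := by
    intro w b hb hw δ η hδ hη
    exact core (K := K) g (fun _ => (H.mot.dim : ℝ) + 1) hgb w hb hw c S hSlim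
      (fun a ε => (EP (nm K) ε fun v => (g a v * w v).re) / lam ε)
      (fun a => by simp only [sub_self]; exact tendsto_const_nhds) hδ hη
  have hQ0 : (0 : ℝ) ≤ -(k₂ : ℝ) + 2 * (e : ℝ) * (-(k₁ : ℝ)) + 1 := by
    refine le_of_forall_pos_le_add fun η hη => ?_
    refine ge_of_tendsto (hQlim.add_const η) ?_
    exact (hcore (fun _ => 0) 0 le_rfl (fun v => by rw [norm_zero]) 1 η zero_lt_one hη).mono
      fun ε hε => hε.1
  have hk2' : (-1 : ℝ) ≤ k₂ := by exact_mod_cast hk₂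
  have hek' : (1 : ℝ) ≤ (e : ℝ) * k₁ := by exact_mod_cast hek
  have e1 : (e : ℝ) * k₁ = 1 := by nlinarith
  have e2 : (k₂ : ℝ) = -1 := by nlinarith
  have e1' : e * k₁ = 1 := by exact_mod_cast e1
  have e2' : k₂ = -1 := by exact_mod_cast e2
  have hke : k₁ = e := by
    rcases he with h | h
    · rw [h] at e1' ⊢
      omega
    · rw [h] at e1' ⊢
      omega
  have hz : -(k₂ : ℝ) + 2 * (e : ℝ) * (-(k₁ : ℝ)) + 1 = 0 := by
    rw [e2]
    linarith
  rw [hz] at hQlim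
  refine ⟨by rw [hke]; exact he, e2', fun w b hb hw => ?_⟩
  have h5 : Tendsto (fun ε : ℝ => ∑ a, c a * ((EP (nm K) ε fun v => (g a v * w v).re) / lam ε))
      (𝓝[>] 0) (𝓝 0) := by
    refine Pool.Agent.Y139.SM.rigid_lim (C := b) hb hQlim fun δ η hδ hη => ?_
    refine (hcore w b hb hw δ η hδ hη).mono fun ε hε => ?_
    rw [sub_zero]
    exact hε.2
  refine h5.congr fun ε => ?_
  simp only [Fintype.sum_bool, hc, hg, if_true, Bool.false_eq_true, if_false, one_mul]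
  rw [hke]

end

end Pool.Agent.R461.UR
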