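import Pool.Agent.W353.AT.Defs

/-!
# Tensor products of the cohomology of several varieties: definitions

`K` is a number field, for example `K = ℚ`.  The objects of the theorem are the tensor products
`H^{i_1}(X_1) ⊗ ⋯ ⊗ H^{i_m}(X_m) ⊗ ψ` for smooth projective varieties `X_1, …, X_m` over `K` and an Artin
representation `ψ` of `K`; by the formula of Künneth they are parts of the cohomology of the product
of the `X_t` with a finite scheme.  For `m = 1` and `ψ = 1` the `L`-function is that of `H^i(X)`.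
The definitions of the Frobenius eigenvalues, of `LFun` (the Euler product), `size` and `HasOrder` are
in `Pool.Agent.W353.EF.Defs` and `Pool.Agent.W353.EH.Defs`, those of the Frobenius elements and of
Artin representations in `Pool.Agent.W353.AT.Defs`.
-/

set_option autoImplicit false

namespace Pool.Agent.R461.UR

open NumberField IsDedekindDomain Filter Topology Polynomial ComplexConjugate
open Pool.Agent.W353.EF (IsFrobenius LFun)
open Pool.Agent.W353.EH (edgePoint size HasOrder)
open Pool.Agent.W353.AT (IsFrobeniusElement IsArtin)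

/-- The cohomology group `H^i(X)`, `0 ≤ i ≤ 2d`, of a projective variety `X` of dimension `d` over `K`,
given by a set of homogeneous polynomials in `l` variables; `N` is the `i`-th Betti number. -/
structure Coh (K : Type) [Field K] where
  l : ℕ
  X : Set (MvPolynomial (Fin l) (𝓞 K))
  d : ℕ
  i : ℕ
  N : ℕ
  le : i ≤ 2 * d

/-- The tensor product `P = H^{i_1}(X_1) ⊗ ⋯ ⊗ H^{i_m}(X_m) ⊗ ψ`, with an Artin representation `ψ` of `K`
of dimension `n`; for `m = 0` it is `ψ`. -/
structure Mot (K : Type) [Field K] where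
  m : ℕ
  H : Fin m → Coh K
  n : ℕ
  ψ : Representation ℂ Gal(AlgebraicClosure K/K) (Fin n → ℂ)
  artin : IsArtin ψ

/-- The dimension of `P`. -/
def Mot.dim {K : Type} [Field K] (P : Mot K) : ℕ := (∏ t, (P.H t).N) * P.n

/-- The weight `i_1 + ⋯ + i_m` of `H^{i_1}(X_1) ⊗ ⋯ ⊗ H^{i_m}(X_m)`. -/
def weight {K : Type} [Field K] {m : ℕ} (H : Fin m → Coh K) : ℕ := ∑ t, (H t).i

/-- The polynomials `B v` are the Euler factors of `L(H^{i_1}(X_1) ⊗ ⋯ ⊗ H^{i_m}(X_m) ⊗ θ, s)`: for almost
all primes `v` of `K`, `B_v(z) = ∏ det(1 - α_{1,f(1)} ⋯ α_{m,f(m)} z θ(σ⁻¹))`, the product over all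
`f` with `1 ≤ f(t) ≤ N_t`, for the eigenvalues `α_{t,j}` of the geometric Frobenius `σ⁻¹` on
`H^{i_t}(X_t)`; at the other primes `B v` is an arbitrary polynomial, and no factor
`1 / B_v(q_v^{-s})` has a pole at the point `s = w/2 + 1 + iτ` of the edge line, `w` the weight. -/
def IsSystem {K : Type} [Field K] [NumberField K] {m : ℕ} (H : Fin m → Coh K) {n : ℕ}
    (θ : Representation ℂ Gal(AlgebraicClosure K/K) (Fin n → ℂ)) (τ : ℝ)
    (B : HeightOneSpectrum (𝓞 K) → ℂ[X]) : Prop :=
  (∀ᶠ v in cofinite, ∃ α : ∀ t, Fin (H t).N → ℂ,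
    (∀ t, IsFrobenius (H t).X (H t).d (H t).i v (α t)) ∧
    ∀ σ, IsFrobeniusElement v σ → ∀ z : ℂ, (B v).eval z =
      ∏ f : (∀ t, Fin (H t).N), LinearMap.det (1 - ((∏ t, α t (f t)) * z) • θ σ⁻¹)) ∧
  ∀ v, (B v).eval ((Ideal.absNorm v.asIdeal : ℂ) ^ (-edgePoint (weight H) τ)) ≠ 0

section
variable {K : Type} [Field K]

/-- The cohomology groups of `P` followed by those of `Q`. -/
def Mot.cat (P Q : Mot K) : Fin (P.m + Q.m) → Coh K := Fin.append P.H Q.H

variable [NumberField K]

/-- The polynomials `B v` are the Euler factors of `L(P, s)` at the point `w/2 + 1 + iτ`. -/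
def IsL (P : Mot K) (τ : ℝ) (B : HeightOneSpectrum (𝓞 K) → ℂ[X]) : Prop :=
  IsSystem P.H P.ψ τ B

/-- The polynomials `B v` are the Euler factors of `L(P ⊗ Q, s)`; `θ` is the tensor product of the
Artin representations, given by its character. -/
def IsTensor (P Q : Mot K) (τ : ℝ) (B : HeightOneSpectrum (𝓞 K) → ℂ[X]) : Prop :=
  ∃ (n : ℕ) (θ : Representation ℂ Gal(AlgebraicClosure K/K) (Fin n → ℂ)), IsArtin θ ∧
    (∀ g, θ.character g = P.ψ.character g * Q.ψ.character g) ∧ IsSystem (P.cat Q) θ τ B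

/-- The polynomials `B v` are the Euler factors of `L(P ⊗ Q', s)` at the real point of the edge line,
where `Q'` is `Q` with the dual Artin representation; it is the dual of `Q` up to a Tate twist. -/
def IsPairing (P Q : Mot K) (B : HeightOneSpectrum (𝓞 K) → ℂ[X]) : Prop :=
  ∃ (n : ℕ) (θ : Representation ℂ Gal(AlgebraicClosure K/K) (Fin n → ℂ)), IsArtin θ ∧
    (∀ g, θ.character g = P.ψ.character g * conj (Q.ψ.character g)) ∧
    IsSystem (P.cat Q) θ 0 B

/-- `log |L(s_τ + ε)| / log(1/ε)` for the Euler product with the factors `B v` belonging to `P ⊗ Q`,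
`s_τ = w/2 + 1 + iτ`, `w` the weight of `P ⊗ Q`.  For a function with a meromorphic continuation of order
`m` at `s_τ` it tends to `-m` as `ε → 0+`. -/
noncomputable def sizeT (P Q : Mot K) (τ : ℝ) (B : HeightOneSpectrum (𝓞 K) → ℂ[X]) (ε : ℝ) : ℝ :=
  size (weight (P.cat Q)) τ B ε

/-- The Euler product with the factors `B v` belonging to `P ⊗ Q` has a meromorphic continuation to a
neighbourhood of `w/2 + 1 + iτ`, of order `m` at this point. -/
def OrderT (P Q : Mot K) (τ : ℝ) (B : HeightOneSpectrum (𝓞 K) → ℂ[X]) (m : ℤ) : Prop :=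
  HasOrder (weight (P.cat Q)) τ B m

/-- The value `∑ c_a c_b x(P_a ⊗ P_b')(ε)` of the quadratic form given by the sizes at the real point of
the edge line. -/
noncomputable def form {κ : Type} [Fintype κ] (P : κ → Mot K) (c : κ → ℝ)
    (B : κ → κ → HeightOneSpectrum (𝓞 K) → ℂ[X]) (ε : ℝ) : ℝ :=
  ∑ a, ∑ b, c a * c b * sizeT (P a) (P b) 0 (B a b) ε

end

/-- The cohomology group `H` itself, with the trivial Artin representation. -/
noncomputable def Coh.mot {K : Type} [Field K] (H : Coh K) : Mot K where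
  m := 1
  H := fun _ => H
  n := 1
  ψ := 1
  artin := ⟨⊤, isOpen_univ, fun _ _ => rfl⟩

/-- `L(H, s)` has a meromorphic continuation to a neighbourhood of the real point `s₀` of the edge line,
of order `k ≠ 0` at `s₀` (a zero if `k > 0`, a pole if `k < 0`), and `L(H ⊗ H, s)` has a meromorphic
continuation to a neighbourhood of the real point of its edge line, with at most a simple pole
there. -/
def Special {K : Type} [Field K] [NumberField K] (H : Coh K) (k : ℤ) : Prop :=
  k ≠ 0 ∧ ∃ (B₁ B₂ : HeightOneSpectrum (𝓞 K) → ℂ[X]) (k₂ : ℤ), IsL H.mot 0 B₁ ∧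
    IsPairing H.mot H.mot B₂ ∧ HasOrder (weight H.mot.H) 0 B₁ k ∧ OrderT H.mot H.mot 0 B₂ k₂ ∧
    -1 ≤ k₂

end Pool.Agent.R461.UR
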