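import Pool.Agent.R461.UR.Main

/-! A zero at the edge determines the orders of all twists. -/

set_option autoImplicit false

namespace Pool.Agent.R461.UR

open Complex Filter Topology ComplexConjugate NumberField IsDedekindDomain Asymptotics
  Pool.Agent.W401.Cheb Pool.Agent.W540.BE Pool.Agent.W353.L1 Polynomial
open Pool.Agent.H341R2 (lam lam_tendsto)
open Pool.Agent.W353.EF (LFun)
open Pool.Agent.W353.EH (edgePoint size HasOrder)
open Pool.Agent.W353.AT (IsArtin)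

section
variable {K : Type} [Field K] [NumberField K]

theorem special_facts {σ : HeightOneSpectrum (𝓞 K) → GK K} (hσ : ∀ v, IsFrob v (σ v))
    {H : Coh K} {k : ℤ} (h : Special H k) :
    (k = 1 ∨ k = -1) ∧ ∀ (w : HeightOneSpectrum (𝓞 K) → ℂ) (b : ℝ), 0 ≤ b →
      (∀ v, ‖w v‖ ≤ b) → Tendsto (fun ε : ℝ =>
        (EP (nm K) ε fun v => (loc H.mot σ v * w v).re) / lam ε +
          k * ((EP (nm K) ε fun v => (w v).re) / lam ε)) (𝓝[>] 0) (𝓝 0) := by
  obtain ⟨hk, B₁, B₂, k₂, h1, h2, h3, h4, h5⟩ := h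
  obtain ⟨g1, -, g3⟩ := single hσ h1 h2 h3 h4 h5 hk
  exact ⟨g1, g3⟩

theorem loc_tw (M : Mot K) (σ : HeightOneSpectrum (𝓞 K) → GK K) (τ : ℝ)
    (v : HeightOneSpectrum (𝓞 K)) : ‖loc M σ v * zz τ v‖ ≤ (M.dim : ℝ) := by
  rw [norm_mul, norm_zz, mul_one]
  exact norm_loc M σ v

/-- **Twists.** -/
theorem twists {H : Coh K} {k : ℤ} (h : Special H k) :
    (k = 1 ∨ k = -1) ∧ ∀ (M : Mot K) (τ : ℝ) (C C' : HeightOneSpectrum (𝓞 K) → ℂ[X]),
      IsTensor H.mot M τ C → IsL M τ C' →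
      Tendsto (fun ε : ℝ => sizeT H.mot M τ C ε + k * size (weight M.H) τ C' ε) (𝓝[>] 0) (𝓝 0) ∧
      ∀ m m' : ℤ, OrderT H.mot M τ C m → HasOrder (weight M.H) τ C' m' → m = -k * m' := by
  choose σ hσ using exists_isFrob (F := K)
  obtain ⟨hk, g⟩ := special_facts hσ h
  refine ⟨hk, fun M τ C C' hC hC' => ?_⟩
  obtain ⟨n1, s1⟩ := tensor_sz hσ hC
  obtain ⟨n2, s2⟩ := l_sz hσ hC'
  have h1 := g (fun v => loc M σ v * zz τ v) (M.dim : ℝ) (Nat.cast_nonneg _)
    (loc_tw M σ τ)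
  have h2 : Tendsto (fun ε : ℝ => sizeT H.mot M τ C ε + k * size (weight M.H) τ C' ε) (𝓝[>] 0)
      (𝓝 0) := by
    have h3 := (h1.sub s1).sub (s2.const_mul (k : ℝ))
    rw [mul_zero, sub_zero, sub_zero] at h3
    refine h3.congr fun ε => ?_
    ring
  refine ⟨h2, fun m m' hm hm' => ?_⟩
  have t1 := size_of_order' n1 hm
  have t2 := size_of_order' n2 hm'
  have h4 := tendsto_nhds_unique (t1.add (t2.const_mul (k : ℝ))) h2
  have h5 : (m : ℝ) = -k * m' := by linarith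
  exact_mod_cast h5

/-- **Two special cohomology groups.** -/
theorem pairs {H H' : Coh K} {k k' : ℤ} (h : Special H k) (h' : Special H' k') :
    (∀ D : HeightOneSpectrum (𝓞 K) → ℂ[X], IsTensor H.mot H'.mot 0 D →
      Tendsto (sizeT H.mot H'.mot 0 D) (𝓝[>] 0) (𝓝 ((k : ℝ) * k')) ∧
      ∀ m : ℤ, OrderT H.mot H'.mot 0 D m → m = -(k * k')) ∧
    ∀ (M : Mot K) (τ : ℝ) (C C' : HeightOneSpectrum (𝓞 K) → ℂ[X]),
      IsTensor H.mot M τ C → IsTensor H'.mot M τ C' →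
      Tendsto (fun ε : ℝ => sizeT H.mot M τ C ε - k * k' * sizeT H'.mot M τ C' ε) (𝓝[>] 0)
        (𝓝 0) := by
  choose σ hσ using exists_isFrob (F := K)
  obtain ⟨hk, g⟩ := special_facts hσ h
  obtain ⟨hk', g'⟩ := special_facts hσ h'
  have hkk : (k' : ℝ) * k' = 1 := by
    rcases hk' with h | h <;> rw [h] <;> norm_num
  refine ⟨fun D hD => ?_, fun M τ C C' hC hC' => ?_⟩
  · obtain ⟨n1, s1⟩ := tensor_sz hσ hD
    have h1 := g (fun v => loc H'.mot σ v * zz 0 v) (H'.mot.dim : ℝ) (Nat.cast_nonneg _)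
      (loc_tw H'.mot σ 0)
    have h2 := g' (fun _ => 1) 1 zero_le_one (fun v => by rw [norm_one])
    simp only [zz_zero, mul_one, Complex.one_re] at h1 h2 s1
    have h3 : Tendsto (sizeT H.mot H'.mot 0 D) (𝓝[>] 0) (𝓝 ((k : ℝ) * k')) := by
      have h4 := ((h1.sub s1).sub (h2.const_mul (k : ℝ))).add
        (((EP_one K).const_mul ((k : ℝ) * k')))
      rw [mul_zero, sub_zero, sub_zero, zero_add, mul_one] at h4
      refine h4.congr fun ε => ?_
      ring
    refine ⟨h3, fun m hm => ?_⟩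
    have h5 := tendsto_nhds_unique (size_of_order' n1 hm) h3
    have h6 : (m : ℝ) = -(k * k') := by linarith
    exact_mod_cast h6
  · obtain ⟨n1, s1⟩ := tensor_sz hσ hC
    obtain ⟨n2, s2⟩ := tensor_sz hσ hC'
    have h1 := g (fun v => loc M σ v * zz τ v) (M.dim : ℝ) (Nat.cast_nonneg _) (loc_tw M σ τ)
    have h2 := g' (fun v => loc M σ v * zz τ v) (M.dim : ℝ) (Nat.cast_nonneg _) (loc_tw M σ τ)
    have h3 := (h1.sub s1).sub ((h2.sub s2).const_mul ((k : ℝ) * k'))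
    simp only [sub_zero, mul_zero] at h3
    refine h3.congr fun ε => ?_
    have e : (k : ℝ) * k' * (k' * ((EP (nm K) ε fun v => (loc M σ v * zz τ v).re) / lam ε)) =
        k * ((EP (nm K) ε fun v => (loc M σ v * zz τ v).re) / lam ε) := by
      rw [← mul_assoc, mul_assoc (k : ℝ), hkk, mul_one]
    linear_combination (-1 : ℝ) * e

end

end Pool.Agent.R461.UR
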