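import Pool.Agent.Y139.SM.Gen
import Pool.Agent.R461.UR.Defs

/-! The sizes of the `L`-functions of tensor products of cohomology groups. -/

set_option autoImplicit false

namespace Pool.Agent.R461.UR

open Complex Filter Topology ComplexConjugate NumberField IsDedekindDomain Asymptotics
  Pool.Agent.W401.Cheb Pool.Agent.W540.BE Pool.Agent.W353.L1 Polynomial
open Pool.Agent.H341R2 (lam lam_tendsto)
open Pool.Agent.W353.PV (tF Eig alp pick pick_spec)
open Pool.Agent.W353.EF (LFun)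
open Pool.Agent.W353.EH (edgePoint size HasOrder)
open Pool.Agent.W353.AT (IsArtin exists_common)

section
variable {K : Type} [Field K] [NumberField K]

theorem edge_eq {m : ℕ} (H : Fin m → Coh K) (τ : ℝ) :
    (((((weight H : ℕ) : ℝ) / 2 : ℝ)) : ℂ) + 1 + (τ : ℂ) * I = edgePoint (weight H) τ := by
  unfold edgePoint
  push_cast
  ring

/-- the normalised trace of the Frobenius on the tensor product -/
noncomputable def tT {m : ℕ} (H : Fin m → Coh K) (v : HeightOneSpectrum (𝓞 K)) : ℝ :=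
  ∏ t, tF (H t).X (H t).d (H t).i (H t).N K v

theorem abs_tT {m : ℕ} (H : Fin m → Coh K) (v : HeightOneSpectrum (𝓞 K)) :
    |tT H v| ≤ ((∏ t, (H t).N : ℕ) : ℝ) := by
  unfold tT
  rw [Finset.abs_prod]
  push_cast
  exact Finset.prod_le_prod (fun t _ => abs_nonneg _) fun t _ => abs_tr_le _ _ _

theorem prods_sum' {m : ℕ} {N : Fin m → ℕ} (β : ∀ t, Fin (N t) → ℂ) :
    ∑ j : Fin (∏ t, N t), ∏ t, β t ((finPiFinEquiv (m := m) (n := N)).symm j t) =
      ∏ t, ∑ j, β t j := by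
  rw [Equiv.sum_comp (finPiFinEquiv (m := m) (n := N)).symm
    (fun f : (∀ t, Fin (N t)) => ∏ t, β t (f t))]
  exact (Fintype.prod_sum β).symm

theorem prods_prod' {m : ℕ} {N : Fin m → ℕ} (β : ∀ t, Fin (N t) → ℂ) (F : ℂ → ℂ) :
    ∏ j : Fin (∏ t, N t), F (∏ t, β t ((finPiFinEquiv (m := m) (n := N)).symm j t)) =
      ∏ f : (∀ t, Fin (N t)), F (∏ t, β t (f t)) :=
  Equiv.prod_comp (finPiFinEquiv (m := m) (n := N)).symm
    (fun f : (∀ t, Fin (N t)) => F (∏ t, β t (f t)))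

/-- **The sizes of the tensor products.** -/
theorem prod_size {m : ℕ} (H : Fin m → Coh K) {σ : HeightOneSpectrum (𝓞 K) → GK K}
    (hσ : ∀ v, IsFrob v (σ v)) {n : ℕ} (θ : Representation ℂ (GK K) (Fin n → ℂ))
    (hθ : IsArtin θ) (τ : ℝ) (B : HeightOneSpectrum (𝓞 K) → ℂ[X]) (hB : IsSystem H θ τ B) :
    (∀ᶠ ε : ℝ in 𝓝[>] 0, LFun B (edgePoint (weight H) τ + ε) ≠ 0) ∧
    Tendsto (fun ε : ℝ => (EP (nm K) ε fun v => ((tT H v : ℂ) *
      (θ.character (σ v)⁻¹ * zz τ v)).re) / lam ε - size (weight H) τ B ε) (𝓝[>] 0) (𝓝 0) := by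
  classical
  obtain ⟨U, hUn, hU, hx1⟩ := exists_common (κ := Unit) (n := fun _ => n)
    (fun _ => θ) fun _ => hθ
  have hx1 : ∀ u ∈ U, θ u = 1 := hx1 ()
  have hfin : Finite (GK K ⧸ U) := Subgroup.quotient_finite_of_isOpen U hU
  set Q : HeightOneSpectrum (𝓞 K) → (∀ t, Fin (H t).N → ℂ) → Prop := fun v α =>
    (∀ t, Eig (H t).X (H t).d (H t).i v (α t)) ∧
    ∀ σ, IsFrob v σ → ∀ z : ℂ, (B v).eval z =
      ∏ f : (∀ t, Fin (H t).N), LinearMap.det (1 - ((∏ t, α t (f t)) * z) • θ σ⁻¹) with hQ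
  set β : HeightOneSpectrum (𝓞 K) → ∀ t, Fin (H t).N → ℂ := fun v =>
    if h : ∃ α, Q v α then h.choose else fun _ _ => 0 with hβ
  have hb : ∀ᶠ v in cofinite, Q v (β v) := hB.1.mono fun v hv => by
    have h : ∃ α, Q v α := hv
    rw [hβ]
    simp only
    rw [dif_pos h]
    exact h.choose_spec
  have hq0 : ∀ v : HeightOneSpectrum (𝓞 K), (0 : ℝ) < (nm K v : ℝ) := fun v => by
    have := Pool.Agent.W353.L1.nm_pos v
    exact_mod_cast this
  have hqC : ∀ v : HeightOneSpectrum (𝓞 K), ((nm K v : ℕ) : ℂ) ≠ 0 := fun v => by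
    have := (hq0 v).ne'
    exact_mod_cast this
  set α : HeightOneSpectrum (𝓞 K) → Fin (∏ t, (H t).N) → ℂ := fun v j =>
    ∏ t, β v t ((finPiFinEquiv (m := m) (n := fun t => (H t).N)).symm j t) with hα
  set w : ℝ := ((weight H : ℕ) : ℝ) / 2 with hw
  have hwsum : w = ∑ t, ((H t).i : ℝ) / 2 := by
    rw [hw, weight, ← Finset.sum_div]
    push_cast
    rfl
  have hnorm : ∀ᶠ v in cofinite, ∀ j, ‖α v j‖ = (nm K v : ℝ) ^ w := by
    refine hb.mono fun v hv j => ?_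
    rw [hα]
    simp only
    rw [norm_prod, hwsum, Real.rpow_sum_of_pos (hq0 v)]
    exact Finset.prod_congr rfl fun t _ => (hv.1 t).norm _
  have htF : ∀ᶠ v in cofinite, ∀ t, ((tF (H t).X (H t).d (H t).i (H t).N K v : ℝ) : ℂ) =
      (∑ j, β v t j) * ((nm K v : ℕ) : ℂ) ^ (-(((((H t).i : ℝ) / 2 : ℝ)) : ℂ)) := by
    refine hb.mono fun v hv t => ?_
    have h3 : Eig (H t).X (H t).d (H t).i v (alp (H t).X (H t).d (H t).i (H t).N K v) :=
      pick_spec ⟨_, hv.1 t⟩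
    have h4 := (hv.1 t).unique' (H t).le h3
    have h5 : ∑ j, alp (H t).X (H t).d (H t).i (H t).N K v j = ∑ j, β v t j :=
      (congrArg Multiset.sum h4).symm
    have h6 := tr_eq (w := ((H t).i : ℝ) / 2) (α := alp (H t).X (H t).d (H t).i (H t).N K)
      (fun j => h3.norm j) (h3.im (H t).le)
    rw [h5] at h6
    exact h6
  have hsum : ∀ᶠ v in cofinite, ∑ j, α v j = ((tT H v : ℝ) : ℂ) *
      ((((nm K v : ℝ) ^ w : ℝ)) : ℂ) := by
    filter_upwards [htF] with v hv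
    have h1 : ∀ t, ∑ j, β v t j = ((tF (H t).X (H t).d (H t).i (H t).N K v : ℝ) : ℂ) *
        ((((nm K v : ℝ) ^ (((H t).i : ℝ) / 2) : ℝ)) : ℂ) := by
      intro t
      rw [hv t, mul_assoc, Complex.ofReal_cpow (hq0 v).le]
      have e : (((nm K v : ℝ)) : ℂ) = ((nm K v : ℕ) : ℂ) := by push_cast; rfl
      rw [e, ← Complex.cpow_add _ _ (hqC v), neg_add_cancel, Complex.cpow_zero, mul_one]
    have h2 : ∑ j, α v j = ∏ t, ∑ j, β v t j := prods_sum' (N := fun t => (H t).N) (β v)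
    rw [h2, Finset.prod_congr rfl fun t _ => h1 t, Finset.prod_mul_distrib, hwsum,
      Real.rpow_sum_of_pos (hq0 v)]
    unfold tT
    push_cast
    rfl
  have hreal : ∀ᶠ v in cofinite, (∑ j, α v j).im = 0 := by
    refine hsum.mono fun v hv => ?_
    rw [hv, ← Complex.ofReal_mul, Complex.ofReal_im]
  have hsz := size_corr w α hnorm hreal U θ hx1 τ B
    (hb.mono fun v hv g hg z => by
      rw [hv.2 g hg z]
      exact (prods_prod' (N := fun t => (H t).N) (β v)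
        (fun y => LinearMap.det (1 - (y * z) • θ g⁻¹))).symm)
    (by
      rw [hw, edge_eq]
      exact hB.2) (LFun B) (fun s _ => rfl) σ hσ
  rw [hw] at hsz
  simp only [edge_eq] at hsz
  refine ⟨hsz.1, ?_⟩
  have htr : ∀ᶠ v in cofinite, tr w α v = tT H v := by
    filter_upwards [hnorm, hreal, hsum] with v h1 h2 h3
    have h5 := tr_eq (w := w) (α := α) (v := v) h1 h2
    rw [h3] at h5
    have h7 : ((((nm K v : ℝ) ^ w : ℝ)) : ℂ) * ((nm K v : ℕ) : ℂ) ^ (-((w : ℝ) : ℂ)) = 1 := by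
      rw [Complex.ofReal_cpow (hq0 v).le]
      have e : (((nm K v : ℝ)) : ℂ) = ((nm K v : ℕ) : ℂ) := by push_cast; rfl
      rw [e, ← Complex.cpow_add _ _ (hqC v), add_neg_cancel, Complex.cpow_zero]
    rw [mul_assoc, h7, mul_one] at h5
    exact_mod_cast h5
  have hbd : ∀ (x : HeightOneSpectrum (𝓞 K) → ℝ) (C : ℝ), (∀ v, |x v| ≤ C) → ∀ v,
      |((x v : ℂ) * (θ.character (σ v)⁻¹ * zz τ v)).re| ≤ C * n := by
    intro x C hx v
    refine (Complex.abs_re_le_norm _).trans ?_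
    rw [norm_mul, norm_mul, norm_zz, mul_one, Complex.norm_real, Real.norm_eq_abs]
    exact mul_le_mul (hx v) (norm_char_le U θ hx1 _) (norm_nonneg _)
      ((abs_nonneg _).trans (hx v))
  have hcong := Pool.Agent.Y139.SM.EP_cofinite (K := K)
    (φ := fun v => ((tT H v : ℂ) * (θ.character (σ v)⁻¹ * zz τ v)).re)
    (ψ := fun v => ((tr w α v : ℂ) * (θ.character (σ v)⁻¹ * zz τ v)).re)
    (hbd _ _ (abs_tT H)) (hbd _ _ (abs_tr_le w α))
    (htr.mono fun v hv => by rw [hv])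
  have h8 := hcong.add hsz.2
  rw [add_zero] at h8
  refine h8.congr fun ε => ?_
  unfold size
  ring

theorem size_of_order' {B : HeightOneSpectrum (𝓞 K) → ℂ[X]} {j : ℕ} {τ : ℝ} {k : ℤ}
    (hnz : ∀ᶠ ε : ℝ in 𝓝[>] 0, LFun B (edgePoint j τ + ε) ≠ 0) (h : HasOrder j τ B k) :
    Tendsto (size j τ B) (𝓝[>] 0) (𝓝 (-(k : ℝ))) := by
  obtain ⟨Λ, h1, h2, h3⟩ := h
  exact Pool.Agent.W353.PV.lim_ord hnz h1 (h2.mono fun s hs hs' => hs (by
    rw [Pool.Agent.W353.AT.edge_re] at hs'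
    exact hs')) h3

end

end Pool.Agent.R461.UR
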